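import Pool.Agent.KT3.StmtsM
import Pool.Agent.Helper69_PFJ.Lsc

/-! Squad KT3, row CLN: the partner is close. -/

set_option autoImplicit false

open Matrix Filter Topology

namespace Pool.Agent.KT3.H10

open Pool.Agent.PFS Pool.Agent.PFJ Pool.Agent.NBT Pool.Agent.KT3

theorem cln_zero {n : ℕ} {C : Set (V n)} (h : PCone C) {u v : ℕ → V n} {u' v' : V n} {b : ℕ → ℝ}
    (hu : Tendsto u atTop (𝓝 u')) (hv : Tendsto v atTop (𝓝 v')) (hv0 : v' ≠ 0)
    (hvc : ∀ m, v m ∈ closure C) (hb : ∀ m, 0 ≤ b m) (hc : ∀ m, u m - b m • v m ∈ closure C)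
    (hz : ∀ β : ℝ, 0 ≤ β → u' - β • v' ∈ closure C → β = 0) :
    Tendsto (fun m => u m - b m • v m) atTop (𝓝 u') := by
  obtain ⟨B, hB0, hB⟩ := h.normal
  have hb0 : Tendsto b atTop (𝓝 0) := by
    apply tendsto_of_subseq_tendsto
    intro ns hns
    have hu1 : Tendsto (fun m => u (ns m)) atTop (𝓝 u') := hu.comp hns
    have hv1 : Tendsto (fun m => v (ns m)) atTop (𝓝 v') := hv.comp hns
    have hvn : 0 < ‖v'‖ := norm_pos_iff.mpr hv0
    have e1 : ∀ᶠ m in atTop, ‖u (ns m)‖ < ‖u'‖ + 1 :=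
      hu1.norm.eventually (gt_mem_nhds (by linarith))
    have e2 : ∀ᶠ m in atTop, ‖v'‖ / 2 < ‖v (ns m)‖ :=
      hv1.norm.eventually (lt_mem_nhds (by linarith))
    have e3 : ∀ᶠ m in atTop, b (ns m) ∈ Set.Icc (0 : ℝ) (B * (‖u'‖ + 1) / (‖v'‖ / 2)) := by
      filter_upwards [e1, e2] with m h1 h2
      refine ⟨hb _, ?_⟩
      rw [le_div_iff₀ (by linarith)]
      have h3 := hB (b (ns m) • v (ns m)) (u (ns m)) (h.cl_smul (hvc _) (hb _)) (hc _)
      rw [norm_smul, Real.norm_of_nonneg (hb _)] at h3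
      calc b (ns m) * (‖v'‖ / 2) ≤ b (ns m) * ‖v (ns m)‖ :=
            mul_le_mul_of_nonneg_left h2.le (hb _)
        _ ≤ B * ‖u (ns m)‖ := h3
        _ ≤ B * (‖u'‖ + 1) := mul_le_mul_of_nonneg_left h1.le hB0.le
    obtain ⟨β, hβ, ψ, hψ, hlim⟩ := isCompact_Icc.tendsto_subseq' e3.frequently
    have h4 : Tendsto (fun m => u (ns (ψ m)) - b (ns (ψ m)) • v (ns (ψ m))) atTop
        (𝓝 (u' - β • v')) :=
      (hu1.comp hψ.tendsto_atTop).sub (hlim.smul (hv1.comp hψ.tendsto_atTop))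
    have h5 : u' - β • v' ∈ closure C :=
      isClosed_closure.mem_of_tendsto h4 (Eventually.of_forall fun m => hc _)
    have h6 := hz β hβ.1 h5
    rw [h6] at hlim
    exact ⟨ψ, hlim⟩
  have h1 : Tendsto (fun m => u m - b m • v m) atTop (𝓝 (u' - (0 : ℝ) • v')) :=
    hu.sub (hb0.smul hv)
  rwa [zero_smul, sub_zero] at h1

theorem cln_nn {n : ℕ} {C : Set (V n)} (h : PCone C) {w : Fin 3 → V n} (hw : PES C w) (j : Fin 3)
    (hj : j ≠ 0) (β : ℝ) (hβ : 0 ≤ β) (hc : w 0 - β • w j ∈ closure C) : β = 0 := by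
  have h1 : ∑ i, (if i = 0 then (1 : ℝ) else if i = j then -β else 0) • w i = w 0 - β • w j := by
    rw [Fin.sum_univ_three]
    fin_cases j
    · exact absurd rfl hj
    · simp [sub_eq_add_neg]
    · simp [sub_eq_add_neg]
  have h2 := nng n C h (Fin 3) w hw (fun i => if i = 0 then (1 : ℝ) else if i = j then -β else 0)
    (by rw [h1]; exact hc) j
  rw [if_neg hj, if_pos rfl] at h2
  linarith

theorem cln_ne {n : ℕ} {C : Set (V n)} (h : PCone C) {w : Fin 3 → V n} (hw : PES C w)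
    (j : Fin 3) : w j ≠ 0 := by
  have h1 := Pool.Agent.PFS.H60.lin n C h (Fin 3) w hw
  exact h1.ne_zero j

theorem cln (wic : WicStmt) (wip : WipStmt) (wiq : WiqStmt) (pjl : PjlStmt) : ClnStmt := by
  intro n C Γ d q h3 x N w han hx hw φ pr p z ξ x0 b b' hφ hpr hz hzt hch
  have hC : PCone C := h3.toPCone
  obtain ⟨hW, -⟩ := wic n C Γ 3 I01 d h3.toHI x w (fun m => (han m).wl) hx hw
  obtain ⟨P, hP⟩ := wip n C Γ 3 I01 d h3.toHI w hW
  have hpes := hW.pes.1
  have hcl : ∀ m i, x m i ∈ closure C := fun m => (han m).wl.pes.1.cl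
  have h1 : Tendsto (fun m => pr m (z m)) atTop (𝓝 (w 0)) := by
    have h2 := wiq n C Γ 3 I01 d h3.toHI x w (fun m => (han m).wl) hW hx pr P z (w 0) hpr hP hzt
    rwa [hP.idB _ (hW.box.mem 0 (by decide))] at h2
  have h4 : Tendsto ξ atTop (𝓝 (w 0)) := by
    have h5 := cln_zero hC h1 (hx 1) (cln_ne hC hpes 1) (fun m => hcl m 1)
      (fun m => (hch m).b0) (fun m => ?_) (fun β hβ hc => cln_nn hC hpes 1 (by decide) β hβ hc)
    · refine h5.congr fun m => ?_
      rw [(hch m).prz, add_sub_cancel_right]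
    · rw [(hch m).prz, add_sub_cancel_right]
      exact (hch m).lf.cl
  have h6 : Tendsto (fun m => p m (z m)) atTop (𝓝 (w 0)) := by
    apply tendsto_of_subseq_tendsto
    intro ns hns
    obtain ⟨θ, N', hθ, hN', -⟩ := Pool.Agent.PFJ.H69.lsc n fun m => N (ns m)
    have hns' : Tendsto (fun m => ns (θ m)) atTop atTop := hns.comp hθ.tendsto_atTop
    have hsum : w 0 + w 2 + w 1 ∈ C := by
      have e : w 0 + w 2 + w 1 = ∑ i, w i := by
        rw [Fin.sum_univ_three]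
        abel
      rw [e]
      exact hw
    obtain ⟨θ', p', hθ', hp', hlim⟩ := pjl n C hC (fun m => N (ns (θ m))) N' hN'
      (fun m => ξ (ns (θ m))) (fun m => x (ns (θ m)) 2) (fun m => x (ns (θ m)) 1) (w 0) (w 2)
      (w 1) (h4.comp hns') ((hx 2).comp hns') ((hx 1).comp hns') hsum
      (fun m => (han _).mem) (fun m => p (ns (θ m))) (fun m => (hch _).pj)
    have h7 := hlim (fun m => z (ns (θ (θ' m)))) (w 0)
      ((hzt.comp hns').comp hθ'.tendsto_atTop)
    rw [hp'.fx] at h7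
    exact ⟨fun m => θ (θ' m), h7⟩
  have h8 := cln_zero hC h6 (hx 2) (cln_ne hC hpes 2) (fun m => hcl m 2)
    (fun m => (hch m).b0') (fun m => ?_) (fun β hβ hc => cln_nn hC hpes 2 (by decide) β hβ hc)
  · refine h8.congr fun m => ?_
    rw [(hch m).pz, add_sub_cancel_right]
  · rw [(hch m).pz, add_sub_cancel_right]
    exact (hch m).cl

end Pool.Agent.KT3.H10
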